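import Pool.Agent.W662.KKS.Stmts

/-! Part FLAT: flattening by random sums. -/

set_option autoImplicit false
set_option maxHeartbeats 1000000

open scoped InnerProductSpace

namespace Pool.Agent.W723.KKS

open Pool.Agent.W662.KKS

section four

variable {E : Type*} [NormedAddCommGroup E] [InnerProductSpace ℂ E]

lemma par (p x : E) : ‖p + x‖ ^ 2 + ‖p - x‖ ^ 2 = 2 * (‖p‖ ^ 2 + ‖x‖ ^ 2) := by
  have h := parallelogram_law_with_norm ℂ p x
  nlinarith [h]

/-- averaging over the fourth roots of unity -/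
lemma four (p a b : E) :
    ‖p + (a + b)‖ ^ 2 + ‖p - (a + b)‖ ^ 2 + ‖p + Complex.I • (a - b)‖ ^ 2 +
      ‖p - Complex.I • (a - b)‖ ^ 2 = 4 * (‖p‖ ^ 2 + ‖a‖ ^ 2 + ‖b‖ ^ 2) := by
  have h1 := par p (a + b)
  have h2 := par p (Complex.I • (a - b))
  have h3 := par a b
  have h4 : ‖Complex.I • (a - b)‖ = ‖a - b‖ := by rw [norm_smul, Complex.norm_I, one_mul]
  rw [h4] at h2
  linarith

end four

variable {H : Type} [NormedAddCommGroup H] [InnerProductSpace ℂ H] [CompleteSpace H]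
  {M : VonNeumannAlgebra H} {ξ : H} {ρ : (H →L[ℂ] H) → (H →L[ℂ] H)}
  {G : ℕ → Finset (H →L[ℂ] H)}

lemma smul_mem' (c : ℂ) {x : H →L[ℂ] H} (hx : x ∈ M) : c • x ∈ M :=
  M.toStarSubalgebra.smul_mem hx c

/-- the trace property in the form of norms -/
lemma norm_star (hS : Std M ξ ρ) {x : H →L[ℂ] H} (hx : x ∈ M) : ‖(star x) ξ‖ = ‖x ξ‖ := by
  have h1 : ⟪(star x) ξ, (star x) ξ⟫_ℂ = ⟪x ξ, x ξ⟫_ℂ := by
    have h2 := hS.tr x hx (star x) (star_mem hx)
    rw [ContinuousLinearMap.star_eq_adjoint] at h2 ⊢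
    rw [ContinuousLinearMap.adjoint_inner_right] at h2
    rw [ContinuousLinearMap.adjoint_inner_left]
    exact h2
  rw [inner_self_eq_norm_sq_to_K, inner_self_eq_norm_sq_to_K] at h1
  have h3 : (‖(star x) ξ‖ : ℂ) ^ 2 = (‖x ξ‖ : ℂ) ^ 2 := by exact_mod_cast h1
  have h4 : ‖(star x) ξ‖ ^ 2 = ‖x ξ‖ ^ 2 := by exact_mod_cast h3
  exact (sq_eq_sq₀ (norm_nonneg _) (norm_nonneg _)).mp h4

lemma norm_unit (u : H →L[ℂ] H) (hu : star u * u = 1) (v : H) : ‖u v‖ = ‖v‖ := by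
  have h1 : ⟪u v, u v⟫_ℂ = ⟪v, v⟫_ℂ := by
    rw [← ContinuousLinearMap.adjoint_inner_right, ← ContinuousLinearMap.star_eq_adjoint]
    have h2 : (star u) (u v) = (star u * u) v := rfl
    rw [h2, hu]
    rfl
  rw [inner_self_eq_norm_sq_to_K, inner_self_eq_norm_sq_to_K] at h1
  have h4 : ‖u v‖ ^ 2 = ‖v‖ ^ 2 := by exact_mod_cast h1
  exact (sq_eq_sq₀ (norm_nonneg _) (norm_nonneg _)).mp h4

lemma rho_unit (hS : Std M ξ ρ) {v : H →L[ℂ] H} (hv : v ∈ M) (hv1 : v * star v = 1) :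
    star (ρ v) * ρ v = 1 := by
  rw [← hS.stm v hv, ← hS.mul v hv (star v) (star_mem hv), hv1, hS.one]

/-- right multiplication by a unitary does not change norms -/
lemma right_unit (hS : Std M ξ ρ) {x v : H →L[ℂ] H} (hx : x ∈ M) (hv : v ∈ M) :
    (x * v) ξ = ρ v (x ξ) := by
  have h1 : ρ v (x ξ) = (ρ v * x) ξ := rfl
  rw [h1, hS.comm v hv x hx]
  have h2 : (x * ρ v) ξ = x (ρ v ξ) := rfl
  rw [h2, hS.vec v hv]
  rfl

lemma norm_right (hS : Std M ξ ρ) {x v : H →L[ℂ] H} (hx : x ∈ M) (hv : v ∈ M)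
    (hv1 : v * star v = 1) : ‖(x * v) ξ‖ = ‖x ξ‖ := by
  rw [right_unit hS hx hv, norm_unit _ (rho_unit hS hv hv1)]

/-- a member of the group below the average -/
lemma pick (hG : LFG M ξ G) {x : H →L[ℂ] H} (hx : x ∈ M) (w : H) (e : ℝ) (he : 0 < e) :
    ∃ n, ∃ u ∈ G n, RCLike.re ⟪w, (star u * x * u) ξ⟫_ℂ ≤ RCLike.re ⟪w, ⟪ξ, x ξ⟫_ℂ • ξ⟫_ℂ + e := by
  obtain ⟨n, hn⟩ := hG.irr x hx (e / (2 * (‖w‖ + 1))) (by positivity)
  have h1 := hn n le_rfl
  refine ⟨n, ?_⟩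
  by_contra hcon
  push Not at hcon
  set B : ℝ := RCLike.re ⟪w, ⟪ξ, x ξ⟫_ℂ • ξ⟫_ℂ + e with hB
  have hc : 0 < (G n).card := Finset.card_pos.mpr ⟨1, hG.one n⟩
  have hc' : (0 : ℝ) < (G n).card := by exact_mod_cast hc
  have h2 : ((G n).card : ℝ) * B < ∑ u ∈ G n, RCLike.re ⟪w, (star u * x * u) ξ⟫_ℂ := by
    have := Finset.sum_lt_sum_of_nonempty (s := G n) ⟨1, hG.one n⟩
      (f := fun _ => B) (g := fun u => RCLike.re ⟪w, (star u * x * u) ξ⟫_ℂ) (fun u hu => hcon u hu)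
    simpa using this
  set A : H := (((G n).card : ℂ)⁻¹ • ∑ u ∈ G n, star u * x * u : H →L[ℂ] H) ξ with hA
  have h3 : RCLike.re ⟪w, A⟫_ℂ = ((G n).card : ℝ)⁻¹ *
      ∑ u ∈ G n, RCLike.re ⟪w, (star u * x * u) ξ⟫_ℂ := by
    rw [hA, smul_apply, sum_apply, inner_smul_right,
      inner_sum]
    have h4 : (((G n).card : ℂ))⁻¹ = (((((G n).card : ℝ))⁻¹ : ℝ) : ℂ) := by push_cast; rfl
    rw [h4]
    simp only [RCLike.re_eq_complex_re, Complex.re_ofReal_mul, Complex.re_sum]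
  have h5 : B < RCLike.re ⟪w, A⟫_ℂ := by
    rw [h3, ← mul_lt_mul_iff_right₀ hc', ← mul_assoc, mul_inv_cancel₀ hc'.ne', one_mul]
    exact h2
  have h6 : RCLike.re ⟪w, A⟫_ℂ - RCLike.re ⟪w, ⟪ξ, x ξ⟫_ℂ • ξ⟫_ℂ ≤ ‖w‖ * (e / (2 * (‖w‖ + 1))) := by
    rw [← map_sub, ← inner_sub_right]
    refine (RCLike.re_le_norm _).trans ((norm_inner_le_norm _ _).trans ?_)
    exact mul_le_mul_of_nonneg_left h1 (norm_nonneg _)
  have h7 : ‖w‖ * (e / (2 * (‖w‖ + 1))) < e := by
    rw [← mul_div_assoc, div_lt_iff₀ (by positivity)]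
    nlinarith [norm_nonneg w]
  linarith

lemma re_self (x : H →L[ℂ] H) (v : H) : ⟪v, (star x * x) v⟫_ℂ = ((‖x v‖ ^ 2 : ℝ) : ℂ) := by
  have h2 : (star x * x) v = (star x) (x v) := rfl
  rw [h2, ContinuousLinearMap.star_eq_adjoint, ContinuousLinearMap.adjoint_inner_right,
    inner_self_eq_norm_sq_to_K]
  push_cast
  rfl

lemma re_self' (x : H →L[ℂ] H) (v : H) :
    RCLike.re ⟪(star x * x) v, v⟫_ℂ = ‖x v‖ ^ 2 := by
  rw [← inner_conj_symm, re_self, RCLike.conj_re]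
  exact Complex.ofReal_re _

lemma fin_calc (lam r ε e s Y B k C c1 c2 a1 a2 a3 a4 b1 b2 b3 b4 d1 d2 d3 d4 : ℝ)
    (g1 : a1 - lam * (b1 + r * d1) < Y + s - lam * (B + k + (4 + r) * C + r) - ε)
    (g2 : a2 - lam * (b2 + r * d2) < Y + s - lam * (B + k + (4 + r) * C + r) - ε)
    (g3 : a3 - lam * (b3 + r * d3) < Y + s - lam * (B + k + (4 + r) * C + r) - ε)
    (g4 : a4 - lam * (b4 + r * d4) < Y + s - lam * (B + k + (4 + r) * C + r) - ε)
    (h1 : a1 + a2 = 2 * (Y + s)) (h2 : a3 + a4 = 2 * (Y + s))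
    (h3 : lam * r * (d1 + d2) = lam * r * (2 * (C + 1 ^ 2)))
    (h4 : lam * r * (d3 + d4) = lam * r * (2 * (C + 1 ^ 2)))
    (h5 : lam * (b1 + b2 + b3 + b4) = lam * (4 * (B + 2 * c1 + k + c2 + c2)))
    (h6 : lam * (4 * (2 * c1 + 2 * c2)) ≤ lam * (4 * (4 * C + 4 * e)))
    (h7 : 4 * lam * e < ε) : False := by
  nlinarith

lemma step (hS : Std M ξ ρ) (hG : LFG M ξ G) (S : H →L[ℂ] H)
    (hSu : ∀ n, ∀ u ∈ G n, S * u = u * S) (hSr : ∀ n, ∀ u ∈ G n, S * ρ u = ρ u * S)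
    {a : H →L[ℂ] H} (ha : a ∈ M) (ha1 : ‖a ξ‖ = 1) (lam r ε : ℝ) (hlam : 0 ≤ lam)
    (hε : 0 < ε) {y : H →L[ℂ] H} (hy : y ∈ M) :
    ∃ y' ∈ M, ‖S (y ξ)‖ ^ 2 + ‖S (a ξ)‖ ^ 2 -
        lam * (‖(star y * y) ξ‖ ^ 2 + ‖(star a * a) ξ‖ ^ 2 + (4 + r) * ‖y ξ‖ ^ 2 + r) - ε ≤
      ‖S (y' ξ)‖ ^ 2 - lam * (‖(star y' * y') ξ‖ ^ 2 + r * ‖y' ξ‖ ^ 2) := by
  set e : ℝ := ε / (4 * (lam + 1)) with he
  have hepos : 0 < e := by positivity
  have hsa := star_mem ha
  have hsy := star_mem hy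
  obtain ⟨n1, v, hv, hv'⟩ := pick hG (mul_mem hsa ha) ((star y * y) ξ) e hepos
  obtain ⟨n2, u', hu', hu''⟩ := pick hG (mul_mem ha hsa) ((y * star y) ξ) e hepos
  have hvM := hG.mem n1 v hv
  have huM' := hG.mem n2 u' hu'
  set u : H →L[ℂ] H := star u' with hu
  have huG : u ∈ G n2 := hG.stm n2 u' hu'
  have huM := hG.mem n2 u huG
  have hsu : star u = u' := by rw [hu, star_star]
  have huu : star u * u = 1 := hG.su n2 u huG
  have hvv : v * star v = 1 := hG.us n1 v hv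
  have hvv' : star v * v = 1 := hG.su n1 v hv
  set z : H →L[ℂ] H := u * a * v with hz
  have hzM : z ∈ M := mul_mem (mul_mem huM ha) hvM
  -- norms of `z`
  have hzξ : z ξ = u (ρ v (a ξ)) := by
    rw [← right_unit hS ha hvM]
    rfl
  have hSz : ‖S (z ξ)‖ = ‖S (a ξ)‖ := by
    have h1 : S (z ξ) = u (ρ v (S (a ξ))) := by
      have h2 : S (u (ρ v (a ξ))) = (S * u) (ρ v (a ξ)) := rfl
      have h3 : S (ρ v (a ξ)) = (S * ρ v) (a ξ) := rfl
      rw [hzξ, h2, hSu n2 u huG]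
      have h4 : (u * S) (ρ v (a ξ)) = u (S (ρ v (a ξ))) := rfl
      rw [h4, h3, hSr n1 v hv]
      rfl
    rw [h1, norm_unit _ huu, norm_unit _ (rho_unit hS hvM hvv)]
  have hz1 : ‖z ξ‖ = 1 := by
    rw [hzξ, norm_unit _ huu, norm_unit _ (rho_unit hS hvM hvv), ha1]
  have hszz : star z * z = star v * (star a * a) * v := by
    rw [hz, star_mul, star_mul]
    calc star v * (star a * star u) * (u * a * v) = star v * star a * (star u * u) * a * v := by
          simp only [mul_assoc]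
      _ = star v * (star a * a) * v := by rw [huu]; simp only [mul_assoc, one_mul]
  have hzsz : z * star z = star u' * (a * star a) * u' := by
    rw [hz, star_mul, star_mul, hsu, ← hu]
    calc u * a * v * (star v * (star a * u')) = u * a * (v * star v) * star a * u' := by
          simp only [mul_assoc]
      _ = u * (a * star a) * u' := by rw [hvv]; simp only [mul_assoc, one_mul]
  have hk : ‖(star z * z) ξ‖ = ‖(star a * a) ξ‖ := by
    rw [hszz]
    have h1 : (star v * (star a * a) * v) ξ = (star v) (((star a * a) * v) ξ) := rfl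
    rw [h1, norm_unit (star v) (by rw [star_star]; exact hvv),
      norm_right hS (mul_mem hsa ha) hvM hvv]
  -- the two cross terms
  have hc1 : RCLike.re ⟪(star y * y) ξ, (star z * z) ξ⟫_ℂ ≤ ‖y ξ‖ ^ 2 + e := by
    rw [hszz]
    refine hv'.trans (le_of_eq ?_)
    rw [re_self, ha1]
    have h1 : (((1 : ℝ) ^ 2 : ℝ) : ℂ) • ξ = ξ := by simp
    rw [h1, re_self']
  have hc2 : RCLike.re ⟪(y * star y) ξ, (z * star z) ξ⟫_ℂ ≤ ‖y ξ‖ ^ 2 + e := by
    rw [hzsz]
    refine hu''.trans (le_of_eq ?_)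
    have h0 := re_self (star a) ξ
    rw [star_star, norm_star hS ha, ha1] at h0
    have h2 := re_self' (star y) ξ
    rw [star_star, norm_star hS hy] at h2
    rw [h0]
    have h1 : (((1 : ℝ) ^ 2 : ℝ) : ℂ) • ξ = ξ := by simp
    rw [h1, h2]
  have hszM := star_mem hzM
  have hc3 : ‖(star y * z) ξ‖ ^ 2 = RCLike.re ⟪(y * star y) ξ, (z * star z) ξ⟫_ℂ := by
    have h1 := re_self (star y * z) ξ
    have h2 : star (star y * z) * (star y * z) = star z * (y * star y * z) := by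
      rw [star_mul, star_star]; simp only [mul_assoc]
    rw [h2] at h1
    have h3 := hS.tr (star z) hszM (y * star y * z) (mul_mem (mul_mem hy hsy) hzM)
    have h4 : (star z * (y * star y * z)) ξ = (star z) ((y * star y * z) ξ) := rfl
    rw [h4, h3] at h1
    have h5 : (y * star y * z) ((star z) ξ) = (y * star y) ((z * star z) ξ) := rfl
    have h6 : ⟪ξ, (y * star y) ((z * star z) ξ)⟫_ℂ = ⟪(y * star y) ξ, (z * star z) ξ⟫_ℂ := by
      have h7 : star (y * star y) = y * star y := by rw [star_mul, star_star]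
      rw [← ContinuousLinearMap.adjoint_inner_left, ← ContinuousLinearMap.star_eq_adjoint, h7]
    rw [h5, h6] at h1
    rw [h1]
    exact (Complex.ofReal_re _).symm
  have hc4 : ‖(star z * y) ξ‖ = ‖(star y * z) ξ‖ := by
    have h1 := norm_star hS (mul_mem hsy hzM)
    rwa [star_mul, star_star] at h1
  set p : H := (star y * y) ξ + (star z * z) ξ with hp
  have hpn : ‖p‖ ^ 2 = ‖(star y * y) ξ‖ ^ 2 + 2 * RCLike.re ⟪(star y * y) ξ, (star z * z) ξ⟫_ℂ +
      ‖(star z * z) ξ‖ ^ 2 := by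
    rw [hp]; exact norm_add_sq _ _
  have hfour := four p ((star y * z) ξ) ((star z * y) ξ)
  set z' : H →L[ℂ] H := Complex.I • z with hz'
  have hz'M : z' ∈ M := smul_mem' _ hzM
  have hsz' : star z' = -Complex.I • star z := by
    rw [hz', star_smul]
    congr 1
    exact Complex.conj_I
  have e1 : (star (y + z) * (y + z)) ξ = p + ((star y * z) ξ + (star z * y) ξ) := by
    have : star (y + z) * (y + z) = star y * y + star z * z + (star y * z + star z * y) := by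
      rw [star_add]; noncomm_ring
    rw [this]; rfl
  have e2 : (star (y - z) * (y - z)) ξ = p - ((star y * z) ξ + (star z * y) ξ) := by
    have : star (y - z) * (y - z) = star y * y + star z * z - (star y * z + star z * y) := by
      rw [star_sub]; noncomm_ring
    rw [this]; rfl
  have hI : Complex.I * Complex.I = -1 := Complex.I_mul_I
  have hzz' : star z' * z' = star z * z := by
    rw [hsz', hz', smul_mul_smul_comm, neg_mul, hI, neg_neg, one_smul]
  have hyz' : star y * z' = Complex.I • (star y * z) := by rw [hz', mul_smul_comm]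
  have hz'y : star z' * y = -(Complex.I • (star z * y)) := by
    rw [hsz', smul_mul_assoc, neg_smul]
  have e3 : (star (y + z') * (y + z')) ξ = p + Complex.I • ((star y * z) ξ - (star z * y) ξ) := by
    have : star (y + z') * (y + z') = star y * y + star z * z +
        Complex.I • (star y * z - star z * y) := by
      have h : star (y + z') * (y + z') = star y * y + star z' * z' + (star y * z' + star z' * y) := by
        rw [star_add]; noncomm_ring
      rw [h, hzz', hyz', hz'y, smul_sub, sub_eq_add_neg]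
    rw [this]; rfl
  have e4 : (star (y - z') * (y - z')) ξ = p - Complex.I • ((star y * z) ξ - (star z * y) ξ) := by
    have : star (y - z') * (y - z') = star y * y + star z * z -
        Complex.I • (star y * z - star z * y) := by
      have h : star (y - z') * (y - z') = star y * y + star z' * z' - (star y * z' + star z' * y) := by
        rw [star_sub]; noncomm_ring
      rw [h, hzz', hyz', hz'y, smul_sub, sub_eq_add_neg (Complex.I • (star y * z))]
    rw [this]; rfl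
  have hS1 := par (S (y ξ)) (S (z ξ))
  have hS2 := par (S (y ξ)) (S (z' ξ))
  have hN1 := par (y ξ) (z ξ)
  have hN2 := par (y ξ) (z' ξ)
  have hz'ξ : z' ξ = Complex.I • z ξ := rfl
  have hSz' : ‖S (z' ξ)‖ = ‖S (a ξ)‖ := by
    rw [hz'ξ, map_smul, norm_smul, Complex.norm_I, one_mul, hSz]
  have hNz' : ‖z' ξ‖ = 1 := by
    rw [hz'ξ, norm_smul, Complex.norm_I, one_mul, hz1]
  rw [hSz] at hS1
  rw [hSz'] at hS2
  rw [hz1] at hN1
  rw [hNz'] at hN2
  rw [← e1, ← e2, ← e3, ← e4, hpn, hk, hc4, hc3] at hfour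
  have s1 : S ((y + z) ξ) = S (y ξ) + S (z ξ) := by rw [add_apply, map_add]
  have s2 : S ((y - z) ξ) = S (y ξ) - S (z ξ) := by rw [sub_apply, map_sub]
  have s3 : S ((y + z') ξ) = S (y ξ) + S (z' ξ) := by rw [add_apply, map_add]
  have s4 : S ((y - z') ξ) = S (y ξ) - S (z' ξ) := by rw [sub_apply, map_sub]
  have t1 : (y + z) ξ = y ξ + z ξ := rfl
  have t2 : (y - z) ξ = y ξ - z ξ := rfl
  have t3 : (y + z') ξ = y ξ + z' ξ := rfl
  have t4 : (y - z') ξ = y ξ - z' ξ := rfl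
  by_contra hcon
  push Not at hcon
  have g1 := hcon (y + z) (add_mem hy hzM)
  have g2 := hcon (y - z) (sub_mem hy hzM)
  have g3 := hcon (y + z') (add_mem hy hz'M)
  have g4 := hcon (y - z') (sub_mem hy hz'M)
  rw [s1, t1] at g1
  rw [s2, t2] at g2
  rw [s3, t3] at g3
  rw [s4, t4] at g4
  have hle : lam * (4 * (2 * RCLike.re ⟪(star y * y) ξ, (star z * z) ξ⟫_ℂ +
      2 * RCLike.re ⟪(y * star y) ξ, (z * star z) ξ⟫_ℂ)) ≤
      lam * (4 * (4 * ‖y ξ‖ ^ 2 + 4 * e)) :=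
    mul_le_mul_of_nonneg_left (by linarith) hlam
  have hlt : 4 * lam * e < ε := by
    rw [he, mul_div_assoc', div_lt_iff₀ (by positivity)]
    nlinarith
  have hsumB := congrArg (fun t => lam * t) hfour
  have hsumC1 := congrArg (fun t => lam * r * t) hN1
  have hsumC2 := congrArg (fun t => lam * r * t) hN2
  exact fin_calc _ _ _ _ _ _ _ _ _ _ _ _ _ _ _ _ _ _ _ _ _ _ _ g1 g2 g3 g4 hS1 hS2 hsumC1 hsumC2
    hsumB hle hlt

theorem flat : S_FLAT := by
  intro H _ _ _ M ξ ρ G hS hG S hSu hSr a ha ha1 m lam ε hlam hε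
  set s : ℝ := ‖S (a ξ)‖ ^ 2 with hs
  set κ : ℝ := ‖(star a * a) ξ‖ ^ 2 with hκ
  set e : ℝ := ε / (m + 1) with he
  have hm1 : (0 : ℝ) < (m : ℝ) + 1 := by positivity
  have hepos : 0 < e := by positivity
  have key : ∀ k : ℕ, k ≤ m → ∃ y ∈ M,
      k * s - lam * (k * κ + (4 * m * k - 2 * k ^ 2)) - k * e ≤
        ‖S (y ξ)‖ ^ 2 - lam * (‖(star y * y) ξ‖ ^ 2 + 4 * (m - k) * ‖y ξ‖ ^ 2) := by
    intro k
    induction k with
    | zero =>
      intro _
      refine ⟨0, zero_mem _, ?_⟩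
      simp
    | succ k ih =>
      intro hk
      obtain ⟨y, hy, hy'⟩ := ih (by omega)
      obtain ⟨y', hy'M, h⟩ := step hS hG S hSu hSr ha ha1 lam (4 * (m - (k + 1))) e hlam hepos hy
      refine ⟨y', hy'M, ?_⟩
      rw [← hs, ← hκ] at h
      push_cast
      refine le_trans ?_ h
      have h2 : lam * (4 * (m - (k + 1)) : ℝ) ≤
          lam * ((4 * m * (k + 1) - 2 * (k + 1) ^ 2) - (4 * m * k - 2 * k ^ 2)) := by
        apply mul_le_mul_of_nonneg_left _ hlam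
        nlinarith
      nlinarith
  obtain ⟨y, hy, h⟩ := key m le_rfl
  refine ⟨y, hy, ?_⟩
  have h1 : (m : ℝ) * e ≤ ε := by
    rw [he, mul_div_assoc', div_le_iff₀ hm1]
    nlinarith
  have h2 : lam * (‖(star y * y) ξ‖ ^ 2 + 4 * ((m : ℝ) - m) * ‖y ξ‖ ^ 2) =
      lam * ‖(star y * y) ξ‖ ^ 2 := by ring
  rw [h2] at h
  have h3 : lam * ((m : ℝ) * κ + (4 * m * m - 2 * m ^ 2)) = lam * (m * κ + 2 * m ^ 2) := by ring
  rw [h3] at h
  linarith

end Pool.Agent.W723.KKS
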